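import Mathlib
import Pool.Agent.P.MP_8a5308_nt.Defs

-- part Pool.Agent.P.MP_8a5308_nt.WZ
section

namespace Pool.Agent.P.MP_8a5308_nt

open Finset

section
variable {A : Type*} [CommRing A] (q : A)

/-- The product of the factors `1 - q^(2i+1)`, `i < m`. -/
def oddP (m : ℕ) : A := ∏ i ∈ range m, (1 - q ^ (2 * i + 1))

/-- The parameter dependent numerator. -/
def numP (a : A) (m : ℕ) : A := ∏ i ∈ range m, ((1 - a * q ^ (2 * i + 1)) * (a - q ^ (2 * i + 1)))

/-- The parametric truncated sum with all denominators cleared. -/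
def Sh (a : A) : ℕ → A
  | 0 => 1 - q
  | K + 1 => (1 - q ^ (4 * K + 2)) * (1 - q ^ (4 * K + 4)) * ((1 - a * q ^ (6 * K + 6)) *
      (a - q ^ (6 * K + 6))) * Sh a K
      + (1 - q ^ (8 * K + 9)) * q ^ (2 * (K + 1) ^ 2) * oddP q (2 * K + 2) * numP q a (K + 1)

def DP (a : A) (m : ℕ) : A := ∏ i ∈ range m, ((1 - a * q ^ (2 * i + 3)) * (a * q ^ 3 - q ^ (2 * i)))

def V (a : A) (m : ℕ) : A := ∏ i ∈ range m, ((1 - a * q ^ (2 * i + 7)) * (a - q ^ (2 * i + 1)))

lemma numP_eq (a : A) (m : ℕ) : numP q a (m + 3) =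
    (1 - a * q) * (1 - a * q ^ 3) * (1 - a * q ^ 5) * (a - q ^ (2 * m + 1)) *
      (a - q ^ (2 * m + 3)) * (a - q ^ (2 * m + 5)) * V q a m := by
  induction m with
  | zero => simp [numP, V, prod_range_succ]; ring
  | succ m ih =>
    have e : numP q a (m + 1 + 3) = numP q a (m + 3) *
        ((1 - a * q ^ (2 * (m + 3) + 1)) * (a - q ^ (2 * (m + 3) + 1))) := prod_range_succ _ _
    have e2 : V q a (m + 1) = V q a m * ((1 - a * q ^ (2 * m + 7)) * (a - q ^ (2 * m + 1))) :=
      prod_range_succ _ _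
    rw [e, e2, ih]; ring

lemma numP_shift_eq (a : A) (m : ℕ) : numP q (a * q ^ 6) (m + 3) =
    (1 - a * q ^ (2 * m + 7)) * (1 - a * q ^ (2 * m + 9)) * (1 - a * q ^ (2 * m + 11)) *
      (a * q ^ 6 - q) * (a * q ^ 6 - q ^ 3) * (a * q ^ 6 - q ^ 5) * q ^ (6 * m) * V q a m := by
  induction m with
  | zero => simp [numP, V, prod_range_succ]; ring
  | succ m ih =>
    have e : numP q (a * q ^ 6) (m + 1 + 3) = numP q (a * q ^ 6) (m + 3) *
        ((1 - a * q ^ 6 * q ^ (2 * (m + 3) + 1)) * (a * q ^ 6 - q ^ (2 * (m + 3) + 1))) :=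
      prod_range_succ _ _
    have e2 : V q a (m + 1) = V q a m * ((1 - a * q ^ (2 * m + 7)) * (a - q ^ (2 * m + 1))) :=
      prod_range_succ _ _
    rw [e, e2, ih]; ring

lemma DP_eq (a : A) (m : ℕ) : DP q a (m + 2) =
    (1 - a * q ^ 3) * (1 - a * q ^ 5) * (a * q ^ 3 - 1) * (a * q ^ 3 - q ^ 2) * q ^ (3 * m) *
      V q a m := by
  induction m with
  | zero => simp [DP, V, prod_range_succ]; ring
  | succ m ih =>
    have e : DP q a (m + 1 + 2) = DP q a (m + 2) *
        ((1 - a * q ^ (2 * (m + 2) + 3)) * (a * q ^ 3 - q ^ (2 * (m + 2)))) :=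
      prod_range_succ _ _
    have e2 : V q a (m + 1) = V q a m * ((1 - a * q ^ (2 * m + 7)) * (a - q ^ (2 * m + 1))) :=
      prod_range_succ _ _
    rw [e, e2, ih]; ring

/-- The telescoped identity for the parametric sum. -/
theorem wz (a : A) (K : ℕ) :
    q ^ 3 * (a - q ^ (6 * K)) * Sh q (a * q ^ 6) K + q ^ (6 * K) * (1 - a * q ^ (6 * K + 6)) * Sh q a K
      = q ^ (2 * K ^ 2 + 7 * K) * (1 + a * q ^ 3) * oddP q (2 * K + 2) * DP q a K := by
  have base : ∀ K : ℕ, K ≤ 2 → q ^ 3 * (a - q ^ (6 * K)) * Sh q (a * q ^ 6) K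
      + q ^ (6 * K) * (1 - a * q ^ (6 * K + 6)) * Sh q a K
      = q ^ (2 * K ^ 2 + 7 * K) * (1 + a * q ^ 3) * oddP q (2 * K + 2) * DP q a K := by
    intro K hK
    interval_cases K
    · simp [Sh, oddP, DP, prod_range_succ]; ring
    · simp [Sh, oddP, DP, numP, prod_range_succ]; ring
    · simp [Sh, oddP, DP, numP, prod_range_succ]; ring
  induction K with
  | zero => exact base 0 (by norm_num)
  | succ K ih =>
    rcases le_or_gt (K + 1) 2 with h | h
    · exact base _ h
    · obtain ⟨m, rfl⟩ : ∃ m, K = m + 2 := ⟨K - 2, by omega⟩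
      have e1 : oddP q (2 * (m + 2 + 1) + 2) = oddP q (2 * (m + 2) + 2) *
          (1 - q ^ (2 * (2 * (m + 2) + 2) + 1)) * (1 - q ^ (2 * (2 * (m + 2) + 2 + 1) + 1)) := by
        have : 2 * (m + 2 + 1) + 2 = 2 * (m + 2) + 2 + 1 + 1 := by ring
        rw [this]
        unfold oddP
        rw [prod_range_succ, prod_range_succ]
      have e2 : DP q a (m + 2 + 1) = DP q a (m + 2) *
          ((1 - a * q ^ (2 * (m + 2) + 3)) * (a * q ^ 3 - q ^ (2 * (m + 2)))) :=
        prod_range_succ _ _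
      have e3 : numP q a (m + 2 + 1) = _ := numP_eq q a m
      have e4 : numP q (a * q ^ 6) (m + 2 + 1) = _ := numP_shift_eq q a m
      rw [Sh.eq_2 q a (m + 2), Sh.eq_2 q (a * q ^ 6) (m + 2), e1, e2, e3, e4]
      rw [DP_eq] at ih ⊢
      generalize Sh q (a * q ^ 6) (m + 2) = S1 at ih ⊢
      generalize Sh q a (m + 2) = S2 at ih ⊢
      generalize oddP q (2 * (m + 2) + 2) = O at ih ⊢
      generalize V q a m = W at ih ⊢
      linear_combination ((1 - q ^ (4 * (m + 2) + 2)) * (1 - q ^ (4 * (m + 2) + 4)) * q ^ 6 *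
        (1 - a * q ^ (6 * (m + 3) + 6)) * (a - q ^ (6 * (m + 3)))) * ih

end

end Pool.Agent.P.MP_8a5308_nt
end

-- part Pool.Agent.P.MP_8a5308_nt.Root
section

namespace Pool.Agent.P.MP_8a5308_nt

open Finset

section
variable {A : Type*} [CommRing A] (q : A)

def rho (n : ℕ) : A :=
  (1 + q ^ (n + 1)) ^ 4 * ((1 + q ^ (2 * n + 1)) * (1 + q ^ (2 * n + 2))) ^ 2 *
    (1 + q ^ (2 * n + 2) + q ^ (4 * n + 4)) ^ 2

/-- The sum multiplied by `1 - q`, as a recursion. -/
def Gs (B : ℕ → A) : ℕ → A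
  | 0 => (1 - q) * B 0
  | n + 1 => rho q n * Gs B n + (1 - q ^ (8 * n + 9)) * q ^ (2 * (n + 1) ^ 2) * B (n + 1)

/-- The recursion satisfied by `(q;q)_(4k) / (q;q)_k^4`. -/
def BRec (B : ℕ → A) : Prop :=
  ∀ k, B (k + 1) * (1 - q ^ (k + 1)) ^ 4 =
    B k * ((1 - q ^ (4 * k + 1)) * (1 - q ^ (4 * k + 2)) * (1 - q ^ (4 * k + 3)) *
      (1 - q ^ (4 * k + 4)))

def evenP (m : ℕ) : A := ∏ i ∈ range m, (1 - q ^ (2 * i + 2))
def allP (m : ℕ) : A := ∏ i ∈ range m, (1 - q ^ (i + 1))

lemma B_allP {B : ℕ → A} (hB : BRec q B) (K : ℕ) :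
    B K * allP q K ^ 4 = B 0 * (oddP q (2 * K) * evenP q (2 * K)) := by
  induction K with
  | zero => simp [allP, oddP, evenP]
  | succ K ih =>
    have e : 2 * (K + 1) = 2 * K + 1 + 1 := by ring
    have e1 : allP q (K + 1) = allP q K * (1 - q ^ (K + 1)) := prod_range_succ _ _
    rw [e, e1]
    unfold oddP evenP at *
    rw [prod_range_succ, prod_range_succ, prod_range_succ, prod_range_succ]
    have := hB K
    linear_combination (allP q K ^ 4) * this + ((1 - q ^ (4 * K + 1)) * (1 - q ^ (4 * K + 2)) *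
      (1 - q ^ (4 * K + 3)) * (1 - q ^ (4 * K + 4))) * ih

lemma numP_one (m : ℕ) : numP q 1 m = oddP q m ^ 2 := by
  unfold numP oddP
  rw [← prod_pow]
  exact prod_congr rfl fun i _ => by ring

lemma Sh_one {B : ℕ → A} (hB : BRec q B) (K : ℕ) :
    B 0 * (evenP q (2 * K) * Sh q 1 K) = oddP q K ^ 2 * allP q K ^ 4 * Gs q B K := by
  induction K with
  | zero => simp [allP, oddP, evenP, Sh, Gs]; ring
  | succ K ih =>
    have e : 2 * (K + 1) = 2 * K + 1 + 1 := by ring
    have e1 : allP q (K + 1) = allP q K * (1 - q ^ (K + 1)) := prod_range_succ _ _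
    have e2 : oddP q (K + 1) = oddP q K * (1 - q ^ (2 * K + 1)) := prod_range_succ _ _
    have e3 : evenP q (2 * (K + 1)) = evenP q (2 * K) * (1 - q ^ (2 * (2 * K) + 2)) *
        (1 - q ^ (2 * (2 * K + 1) + 2)) := by
      rw [e]; unfold evenP; rw [prod_range_succ, prod_range_succ]
    have e4 := B_allP q hB (K + 1)
    have e5 : 2 * (K + 1) = 2 * K + 2 := by ring
    rw [Sh, Gs, numP_one]
    rw [e5] at e4 e3 ⊢
    rw [e3, e1] at e4
    rw [e3, e2, e1]
    unfold rho
    linear_combination ((1 - q ^ (4 * K + 2)) * (1 - q ^ (4 * K + 4)) * (1 - q ^ (6 * K + 6))) ^ 2 * ih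
      - (oddP q K * (1 - q ^ (2 * K + 1))) ^ 2 * ((1 - q ^ (8 * K + 9)) * q ^ (2 * (K + 1) ^ 2)) * e4

end

section
variable {F : Type*} [Field F] {z : F} {d : ℕ} (hz : IsPrimitiveRoot z d)
include hz

lemma one_sub_pow_ne {j : ℕ} (h0 : 0 < j) (hj : j < d) : 1 - z ^ j ≠ 0 :=
  sub_ne_zero.mpr (hz.pow_ne_one_of_pos_of_lt h0.ne' hj).symm

lemma pow_block (c s j : ℕ) : z ^ (c * (s * d) + j) = z ^ j := by
  rw [pow_add, mul_comm s d, ← mul_assoc, mul_comm c d, mul_assoc, pow_mul, hz.pow_eq_one,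
    one_pow, one_mul]

lemma Sh_one_zero (hd : Nat.Coprime 6 d) (hd1 : 1 < d) : Sh z 1 ((d - 1) / 4) = 0 := by
  set K := (d - 1) / 4 with hK
  have hz0 : z ≠ 0 := hz.ne_zero (by omega)
  have hodd : d % 2 = 1 := by
    have : Nat.Coprime 2 d := Nat.Coprime.coprime_dvd_left (by norm_num) hd
    rw [Nat.coprime_two_left] at this
    exact Nat.odd_iff.mp this
  have h3 : d ≠ 3 := by
    rintro rfl
    norm_num at hd
  have hO : oddP z (2 * K + 2) = 0 := by
    unfold oddP
    refine prod_eq_zero (i := d / 2) (mem_range.mpr (by omega)) ?_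
    have : 2 * (d / 2) + 1 = d := by omega
    rw [this, hz.pow_eq_one, sub_self]
  have hQ : IsPrimitiveRoot (z ^ 6) d := hz.pow_of_coprime 6 hd
  have key : ∀ i, i ≤ K → Sh z ((z ^ 6) ^ (K - i)) K = 0 := by
    intro i
    induction i with
    | zero =>
      intro _
      have h := wz z ((z ^ 6) ^ K) K
      rw [hO, ← pow_mul, sub_self] at h
      have h1 : 1 - z ^ (6 * K) * z ^ (6 * K + 6) ≠ 0 := by
        have : z ^ (6 * K) * z ^ (6 * K + 6) = (z ^ 6) ^ (2 * K + 1) := by ring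
        rw [this]
        exact one_sub_pow_ne hQ (by omega) (by omega)
      have h2 : z ^ (6 * K) * (1 - z ^ (6 * K) * z ^ (6 * K + 6)) * Sh z (z ^ (6 * K)) K = 0 := by
        linear_combination h
      rw [Nat.sub_zero, ← pow_mul]
      exact (mul_eq_zero.mp h2).resolve_left (mul_ne_zero (pow_ne_zero _ hz0) h1)
    | succ i ih =>
      intro hi
      have h := wz z ((z ^ 6) ^ (K - (i + 1))) K
      have e : (z ^ 6) ^ (K - (i + 1)) * z ^ 6 = (z ^ 6) ^ (K - i) := by
        rw [← pow_succ]; congr 1; omega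
      rw [hO, e, ih (by omega)] at h
      have h1 : 1 - (z ^ 6) ^ (K - (i + 1)) * z ^ (6 * K + 6) ≠ 0 := by
        have : (z ^ 6) ^ (K - (i + 1)) * z ^ (6 * K + 6) = (z ^ 6) ^ (K - (i + 1) + K + 1) := by
          ring
        rw [this]
        exact one_sub_pow_ne hQ (by omega) (by omega)
      have h2 : z ^ (6 * K) * (1 - (z ^ 6) ^ (K - (i + 1)) * z ^ (6 * K + 6)) *
          Sh z ((z ^ 6) ^ (K - (i + 1))) K = 0 := by
        linear_combination h
      exact (mul_eq_zero.mp h2).resolve_left (mul_ne_zero (pow_ne_zero _ hz0) h1)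
  have := key K le_rfl
  simpa using this

variable {B : ℕ → F} (hB : BRec z B)
include hB

lemma Gs_first (hd : Nat.Coprime 6 d) (hd1 : 1 < d) : Gs z B ((d - 1) / 4) = 0 := by
  set K := (d - 1) / 4 with hK
  have h := Sh_one z hB K
  rw [Sh_one_zero hz hd hd1] at h
  have h1 : oddP z K ≠ 0 := by
    unfold oddP
    exact prod_ne_zero_iff.mpr fun i hi =>
      one_sub_pow_ne hz (by omega) (by have := mem_range.mp hi; omega)
  have h2 : allP z K ≠ 0 := by
    unfold allP
    exact prod_ne_zero_iff.mpr fun i hi =>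
      one_sub_pow_ne hz (by omega) (by have := mem_range.mp hi; omega)
  have h3 : oddP z K ^ 2 * allP z K ^ 4 * Gs z B K = 0 := by linear_combination -h
  exact (mul_eq_zero.mp h3).resolve_left (mul_ne_zero (pow_ne_zero _ h1) (pow_ne_zero _ h2))

lemma BRec_shift (s : ℕ) : BRec z (fun t => B (s * d + t)) := by
  intro k
  have h := hB (s * d + k)
  have e0 : z ^ (s * d + k + 1) = z ^ (k + 1) := by
    rw [← pow_block hz 1 s (k + 1)]; congr 1; ring
  have e : ∀ i, z ^ (4 * (s * d + k) + i) = z ^ (4 * k + i) := fun i => by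
    rw [← pow_block hz 4 s (4 * k + i)]; congr 1; ring
  rw [e0, e, e, e, e] at h
  exact h

lemma B_zero (t : ℕ) (ht : t < d) (h4 : d ≤ 4 * t) : B t = 0 := by
  induction t with
  | zero => omega
  | succ t ih =>
    have h := hB t
    have h1 : (1 - z ^ (t + 1)) ^ 4 ≠ 0 := pow_ne_zero _ (one_sub_pow_ne hz (by omega) ht)
    have h2 : B t * ((1 - z ^ (4 * t + 1)) * (1 - z ^ (4 * t + 2)) * (1 - z ^ (4 * t + 3)) *
        (1 - z ^ (4 * t + 4))) = 0 := by
      rcases le_or_gt d (4 * t) with k | k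
      · rw [ih (by omega) k, zero_mul]
      · have : d = 4 * t + 1 ∨ d = 4 * t + 2 ∨ d = 4 * t + 3 ∨ d = 4 * t + 4 := by omega
        rcases this with e | e | e | e <;> rw [← e, hz.pow_eq_one] <;> ring
    rw [h2] at h
    exact (mul_eq_zero.mp h).resolve_right h1

lemma propagate (s t0 : ℕ) (h0 : Gs z B (s * d + t0) = 0) (h4 : d ≤ 4 * (t0 + 1)) (t : ℕ)
    (h1 : t0 ≤ t) (h2 : t < d) : Gs z B (s * d + t) = 0 := by
  induction t, h1 using Nat.le_induction with
  | base => exact h0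
  | succ t ht ih =>
    have e : s * d + (t + 1) = s * d + t + 1 := by ring
    have hb : B (s * d + (t + 1)) = 0 :=
      B_zero hz (BRec_shift hz hB s) (t + 1) h2 (by omega)
    rw [e] at hb ⊢
    rw [Gs, ih (by omega), hb]; ring

omit hB in
lemma rho_block (s t : ℕ) : rho z (s * d + t) = rho z t := by
  unfold rho
  have e0 : z ^ (s * d + t + 1) = z ^ (t + 1) := by
    rw [← pow_block hz 1 s (t + 1)]; congr 1; ring
  have e2 : ∀ i, z ^ (2 * (s * d + t) + i) = z ^ (2 * t + i) := fun i => by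
    rw [← pow_block hz 2 s (2 * t + i)]; congr 1; ring
  have e4 : ∀ i, z ^ (4 * (s * d + t) + i) = z ^ (4 * t + i) := fun i => by
    rw [← pow_block hz 4 s (4 * t + i)]; congr 1; ring
  rw [e0, e2, e2, e4]

omit hB in
lemma Gs_block (s : ℕ) (h0 : Gs z B (s * d) = (1 - z) * B (s * d)) (t : ℕ) :
    Gs z B (s * d + t) = Gs z (fun t => B (s * d + t)) t := by
  induction t with
  | zero => simpa [Gs] using h0
  | succ t ih =>
    have e : s * d + (t + 1) = s * d + t + 1 := by ring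
    have e8 : z ^ (8 * (s * d + t) + 9) = z ^ (8 * t + 9) := by
      rw [← pow_block hz 8 s (8 * t + 9)]; congr 1; ring
    have e2 : z ^ (2 * (s * d + t + 1) ^ 2) = z ^ (2 * (t + 1) ^ 2) := by
      rw [← pow_block hz (2 * (s * d) + 4 * (t + 1)) s (2 * (t + 1) ^ 2)]; congr 1; ring
    rw [e, Gs, Gs, ih, rho_block hz, e8, e2, e]

lemma coprime_case (hd : Nat.Coprime 6 d) (hd1 : 1 < d) (s : ℕ) :
    Gs z B (s * d + (d - 1) / 4) = 0 := by
  induction s with
  | zero => simpa using Gs_first hz hB hd hd1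
  | succ s ih =>
    have h1 := propagate hz hB s _ ih (by omega) (d - 1) (by omega) (by omega)
    have e : (s + 1) * d = s * d + (d - 1) + 1 := by
      rw [add_mul, one_mul]; omega
    have h0 : Gs z B ((s + 1) * d) = (1 - z) * B ((s + 1) * d) := by
      have e8 : z ^ (8 * (s * d + (d - 1)) + 9) = z := by
        have : 8 * (s * d + (d - 1)) + 9 = 8 * ((s + 1) * d) + 1 := by rw [e]; ring
        rw [this, pow_block hz, pow_one]
      have e2 : z ^ (2 * (s * d + (d - 1) + 1) ^ 2) = 1 := by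
        rw [← e]
        have : 2 * ((s + 1) * d) ^ 2 = (2 * ((s + 1) * d)) * ((s + 1) * d) + 0 := by ring
        rw [this, pow_block hz, pow_zero]
      conv_lhs => rw [e, Gs, h1, e8, e2, ← e]
      ring
    rw [Gs_block hz (s + 1) h0]
    exact Gs_first hz (BRec_shift hz hB (s + 1)) hd hd1

lemma rho_case (j : ℕ) (hj : rho z j = 0) (hjd : j + 1 < d) (h4 : d ≤ 4 * (j + 1)) (s : ℕ) :
    Gs z B (s * d + (j + 1)) = 0 := by
  have hb : B (s * d + (j + 1)) = 0 := B_zero hz (BRec_shift hz hB s) (j + 1) hjd h4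
  have e : s * d + (j + 1) = s * d + j + 1 := by ring
  rw [e] at hb ⊢
  rw [Gs, rho_block hz, hj, hb]; ring

theorem Gs_vanish (hd1 : 1 < d) (n : ℕ) (hn : d ≤ 3 * (n % d)) : Gs z B n = 0 := by
  have hlt : n % d < d := Nat.mod_lt _ (by omega)
  have e : n = n / d * d + n % d := (Nat.div_add_mod' n d).symm
  rw [e]
  set s := n / d
  set b := n % d
  have half : ∀ c, d = 2 * c → z ^ c = -1 := by
    intro c hc
    have h1 : (z ^ c) ^ 2 = 1 := by rw [← pow_mul, mul_comm, ← hc, hz.pow_eq_one]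
    rcases sq_eq_one_iff.mp h1 with h | h
    · exact absurd h (hz.pow_ne_one_of_pos_of_lt (by omega) (by omega))
    · exact h
  rcases Nat.even_or_odd' d with ⟨c, hc | hc⟩
  · rcases Nat.even_or_odd' c with ⟨u, hu | hu⟩
    · obtain ⟨j, rfl⟩ : ∃ j, u = j + 1 := ⟨u - 1, by omega⟩
      have hr : rho z j = 0 := by
        unfold rho
        have : z ^ (2 * j + 2) = -1 := half _ (by omega)
        rw [this]; ring
      exact propagate hz hB s _ (rho_case hz hB j hr (by omega) (by omega) s) (by omega) b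
        (by omega) hlt
    · have hr : rho z u = 0 := by
        unfold rho
        have : z ^ (2 * u + 1) = -1 := half _ (by omega)
        rw [this]; ring
      exact propagate hz hB s _ (rho_case hz hB u hr (by omega) (by omega) s) (by omega) b
        (by omega) hlt
  · by_cases h3 : 3 ∣ d
    · obtain ⟨u, hu⟩ := h3
      obtain ⟨j, rfl⟩ : ∃ j, u = j + 1 := ⟨u - 1, by omega⟩
      have hr : rho z j = 0 := by
        unfold rho
        have h1 : 1 - z ^ (2 * j + 2) ≠ 0 := one_sub_pow_ne hz (by omega) (by omega)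
        have h2 : (1 - z ^ (2 * j + 2)) * (1 + z ^ (2 * j + 2) + z ^ (4 * j + 4)) = 0 := by
          have : z ^ (6 * j + 6) = 1 := by
            have : 6 * j + 6 = d * 2 := by omega
            rw [this, pow_mul, hz.pow_eq_one, one_pow]
          linear_combination -this
        rw [(mul_eq_zero.mp h2).resolve_left h1]; ring
      exact propagate hz hB s _ (rho_case hz hB j hr (by omega) (by omega) s) (by omega) b
        (by omega) hlt
    · have hd : Nat.Coprime 6 d := by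
        have h2 : Nat.Coprime 2 d := by
          rw [Nat.coprime_two_left]; exact ⟨c, hc⟩
        have h3' : Nat.Coprime 3 d := (Nat.Prime.coprime_iff_not_dvd Nat.prime_three).mpr h3
        exact Nat.Coprime.mul_left h2 h3'
      exact propagate hz hB s _ (coprime_case hz hB hd hd1 s) (by omega) b (by omega) hlt

end

end Pool.Agent.P.MP_8a5308_nt
end

-- part Pool.Agent.P.MP_8a5308_nt.Main
section

namespace Pool.Agent.P.MP_8a5308_nt

open Finset Polynomial

section
variable {A : Type*} [CommRing A] (q : A)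

/-- The Gaussian binomial coefficient with top `j + k`, by the Pascal recursion. -/
def gb : ℕ → ℕ → A
  | 0, _ => 1
  | _ + 1, 0 => 1
  | j + 1, k + 1 => gb j (k + 1) + q ^ (j + 1) * gb (j + 1) k

lemma allP_succ (m : ℕ) : allP q (m + 1) = allP q m * (1 - q ^ (m + 1)) := prod_range_succ _ _

lemma gb_spec (j k : ℕ) : gb q j k * allP q j * allP q k = allP q (j + k) := by
  induction j generalizing k with
  | zero => simp [gb, allP]
  | succ j ihj =>
    induction k with
    | zero => simp [gb, allP]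
    | succ k ihk =>
      have h1 := ihj (k + 1)
      have e1 : j + 1 + (k + 1) = j + k + 1 + 1 := by ring
      have e2 : j + (k + 1) = j + k + 1 := by ring
      have e3 : j + 1 + k = j + k + 1 := by ring
      rw [e2] at h1
      rw [e3] at ihk
      rw [gb, e1, allP_succ q (j + k + 1)]
      rw [allP_succ q k] at h1 ⊢
      rw [allP_succ q j] at ihk ⊢
      linear_combination (1 - q ^ (j + 1)) * h1 + q ^ (j + 1) * (1 - q ^ (k + 1)) * ihk

def Bs (k : ℕ) : A := gb q (2 * k) (2 * k) * gb q k k ^ 2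

lemma Bs_spec (k : ℕ) : Bs q k * allP q k ^ 4 = allP q (4 * k) := by
  have h1 := gb_spec q (2 * k) (2 * k)
  have h2 := gb_spec q k k
  have e1 : 2 * k + 2 * k = 4 * k := by ring
  have e2 : k + k = 2 * k := by ring
  rw [e1] at h1
  rw [e2] at h2
  rw [← h1, ← h2, Bs]; ring

def Fs : ℕ → A
  | 0 => 1
  | n + 1 => rho q n * Fs n +
      (∑ i ∈ range (8 * n + 9), q ^ i) * q ^ (2 * (n + 1) ^ 2) * Bs q (n + 1)

lemma Fs_Gs (n : ℕ) : (1 - q) * Fs q n = Gs q (Bs q) n := by
  induction n with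
  | zero => simp [Fs, Gs, Bs, gb]
  | succ n ih =>
    rw [Fs, Gs, ← ih, ← mul_neg_geom_sum q (8 * n + 9)]; ring

variable {A' : Type*} [CommRing A'] (f : A →+* A')

lemma map_gb (j k : ℕ) : f (gb q j k) = gb (f q) j k := by
  induction j generalizing k with
  | zero => simp [gb]
  | succ j ihj =>
    induction k with
    | zero => simp [gb]
    | succ k ihk => rw [gb, gb, map_add, map_mul, map_pow, ihj, ihk]

lemma map_allP (m : ℕ) : f (allP q m) = allP (f q) m := by simp [allP]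

lemma map_Bs (k : ℕ) : f (Bs q k) = Bs (f q) k := by simp [Bs, map_gb]

lemma map_rho (k : ℕ) : f (rho q k) = rho (f q) k := by simp [rho]

lemma map_Fs (n : ℕ) : f (Fs q n) = Fs (f q) n := by
  induction n with
  | zero => simp [Fs]
  | succ n ih => simp [Fs, ih, map_rho, map_Bs]

end

lemma lc_allP {A : Type*} [CommRing A] [IsDomain A] (m : ℕ) :
    (allP (X : A[X]) m).leadingCoeff = (-1) ^ m := by
  induction m with
  | zero => simp [allP]
  | succ m ih =>
    rw [allP_succ, leadingCoeff_mul, ih, pow_succ (-1 : A)]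
    congr 1
    have : (1 - X ^ (m + 1) : A[X]) = -(X ^ (m + 1) - C 1) := by simp
    rw [this, leadingCoeff_neg, (monic_X_pow_sub_C (1 : A) (Nat.succ_ne_zero m)).leadingCoeff]

lemma allP_ne {A : Type*} [CommRing A] [IsDomain A] (m : ℕ) : allP (X : A[X]) m ≠ 0 := by
  rw [← leadingCoeff_ne_zero, lc_allP]
  exact pow_ne_zero _ (by simp)

lemma gb_monic (j k : ℕ) : (gb (X : ℤ[X]) j k).Monic := by
  have h := congrArg leadingCoeff (gb_spec (X : ℤ[X]) j k)
  rw [leadingCoeff_mul, leadingCoeff_mul, lc_allP, lc_allP, lc_allP, mul_assoc, ← pow_add] at h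
  have h0 : ((-1 : ℤ)) ^ (j + k) ≠ 0 := pow_ne_zero _ (by simp)
  exact mul_right_cancel₀ h0 (by rw [h, one_mul])

lemma Bs_rec_poly : BRec (X : ℤ[X]) (Bs X) := by
  intro k
  have h1 := Bs_spec (X : ℤ[X]) k
  have h2 := Bs_spec (X : ℤ[X]) (k + 1)
  have e : 4 * (k + 1) = 4 * k + 1 + 1 + 1 + 1 := by ring
  rw [e, allP_succ, allP_succ, allP_succ, allP_succ, allP_succ, ← h1] at h2
  apply mul_right_cancel₀ (pow_ne_zero 4 (allP_ne (A := ℤ) k))
  linear_combination h2

lemma Bs_rec {A : Type*} [CommRing A] (q : A) : BRec q (Bs q) := by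
  intro k
  have h := congrArg (eval₂RingHom (Int.castRingHom A) q) (Bs_rec_poly k)
  have e : eval₂RingHom (Int.castRingHom A) q X = q := by simp
  simp only [map_mul, map_pow, map_sub, map_one, map_Bs, e] at h
  exact h

lemma mult_allP {z : ℂ} {d : ℕ} (hz : IsPrimitiveRoot z d) (m : ℕ) :
    rootMultiplicity z (allP (X : ℂ[X]) m) = m / d := by
  induction m with
  | zero => simp [allP]
  | succ m ih =>
    have hne := allP_ne (A := ℂ) (m + 1)
    rw [allP_succ] at hne ⊢
    rw [rootMultiplicity_mul hne, ih, Nat.succ_div]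
    congr 1
    have e : (1 - X ^ (m + 1) : ℂ[X]) = -(X ^ (m + 1) - 1) := by simp
    have hsep : (1 - X ^ (m + 1) : ℂ[X]).Separable := by
      have h1 : (X ^ (m + 1) - 1 : ℂ[X]).Separable :=
        X_pow_sub_one_separable_iff.mpr (by exact_mod_cast Nat.succ_ne_zero m)
      exact h1.of_dvd (by rw [e]; exact neg_dvd.mpr dvd_rfl)
    split_ifs with h
    · refine le_antisymm (rootMultiplicity_le_one_of_separable hsep z) ?_
      refine (rootMultiplicity_pos hsep.ne_zero).mpr ?_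
      simp [(hz.pow_eq_one_iff_dvd _).mpr h]
    · refine rootMultiplicity_eq_zero ?_
      intro hr
      apply h
      rw [← hz.pow_eq_one_iff_dvd]
      simp only [IsRoot.def, eval_sub, eval_one, eval_pow, eval_X] at hr
      exact (sub_eq_zero.mp hr).symm

lemma gb_dvd (j k : ℕ) (P : ℤ[X])
    (h : ∀ d : ℕ, ∀ z : ℂ, IsPrimitiveRoot z d → j / d + k / d < (j + k) / d →
      eval₂RingHom (Int.castRingHom ℂ) z P = 0) : gb (X : ℤ[X]) j k ∣ P := by
  classical
  rw [← map_dvd_map (Int.castRingHom ℂ) (RingHom.injective_int _) (gb_monic j k)]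
  have eg : (gb (X : ℤ[X]) j k).map (Int.castRingHom ℂ) = gb (X : ℂ[X]) j k := by
    have := map_gb (X : ℤ[X]) (mapRingHom (Int.castRingHom ℂ)) j k
    simpa using this
  rw [eg]
  by_cases hP : P.map (Int.castRingHom ℂ) = 0
  · rw [hP]; exact dvd_zero _
  have hspec := gb_spec (X : ℂ[X]) j k
  have hne := allP_ne (A := ℂ) (j + k)
  have hg0 : gb (X : ℂ[X]) j k ≠ 0 := by
    intro h0
    rw [← hspec, h0] at hne
    simp at hne
  refine (IsAlgClosed.splits _).dvd_of_roots_le_roots hg0 (Multiset.le_iff_count.mpr fun z => ?_)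
  rw [count_roots, count_roots]
  have hz := IsPrimitiveRoot.orderOf z
  have hm := mult_allP hz (j + k)
  rw [← hspec] at hm hne
  rw [rootMultiplicity_mul hne, rootMultiplicity_mul (left_ne_zero_of_mul hne), mult_allP hz,
    mult_allP hz] at hm
  have hle : (j + k) / orderOf z ≤ j / orderOf z + k / orderOf z + 1 := Nat.add_div_le_div_add_div_add_one _ _ _
  rcases Nat.eq_zero_or_pos (rootMultiplicity z (gb (X : ℂ[X]) j k)) with h0 | h0
  · rw [h0]; exact Nat.zero_le _
  · have h1 := h _ z hz (by omega)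
    have h2 : 0 < rootMultiplicity z (P.map (Int.castRingHom ℂ)) := by
      refine (rootMultiplicity_pos hP).mpr ?_
      rw [IsRoot.def, eval_map]
      exact h1
    omega

lemma Fs_vanish {z : ℂ} {d : ℕ} (hz : IsPrimitiveRoot z d) (hd : 1 < d) (n : ℕ)
    (hn : d ≤ 3 * (n % d)) : eval₂RingHom (Int.castRingHom ℂ) z (Fs X n) = 0 := by
  rw [map_Fs]
  have e : eval₂RingHom (Int.castRingHom ℂ) z X = z := by simp
  rw [e]
  have h := Gs_vanish hz (Bs_rec z) hd n hn
  rw [← Fs_Gs] at h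
  exact (mul_eq_zero.mp h).resolve_left (sub_ne_zero.mpr (hz.ne_one hd).symm)

lemma cond (n c d : ℕ) (hc : c = 1 ∨ c = 2) (h : n / d + c * n / d < (n + c * n) / d) :
    1 < d ∧ d ≤ 3 * (n % d) := by
  rcases Nat.eq_zero_or_pos d with rfl | hd
  · simp at h
  have hd1 : d ≠ 1 := by
    rintro rfl
    simp at h
  refine ⟨by omega, ?_⟩
  by_contra hcon
  have e : n = d * (n / d) + n % d := (Nat.div_add_mod n d).symm
  set s := n / d
  set b := n % d
  have h1 : c * n / d = c * s := by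
    have : c * n = c * b + d * (c * s) := by rw [e]; ring
    rw [this, Nat.add_mul_div_left _ _ hd, Nat.div_eq_of_lt (by rcases hc with rfl | rfl <;> omega),
      zero_add]
  have h2 : (n + c * n) / d = s + c * s := by
    have : n + c * n = (b + c * b) + d * (s + c * s) := by rw [e]; ring
    rw [this, Nat.add_mul_div_left _ _ hd, Nat.div_eq_of_lt (by rcases hc with rfl | rfl <;> omega),
      zero_add]
  omega

theorem poly_dvd (n c : ℕ) (hc : c = 1 ∨ c = 2) : gb (X : ℤ[X]) n (c * n) ∣ Fs X n :=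
  gb_dvd n (c * n) _ fun d _ hz h => Fs_vanish hz (cond n c d hc h).1 n (cond n c d hc h).2

noncomputable abbrev φ : ℤ[X] →+* RatFunc ℚ := (aeval (RatFunc.X : RatFunc ℚ)).toRingHom

lemma φ_X : φ X = RatFunc.X := by simp

lemma one_sub_ne (c : ℚ) (j : ℕ) : (1 - RatFunc.C c * RatFunc.X ^ (j + 1) : RatFunc ℚ) ≠ 0 := by
  have : (1 - RatFunc.C c * RatFunc.X ^ (j + 1) : RatFunc ℚ)
      = algebraMap ℚ[X] (RatFunc ℚ) (1 - C c * X ^ (j + 1)) := by simp
  rw [this]
  refine RatFunc.algebraMap_ne_zero ?_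
  intro h
  have := congrArg (eval 0) h
  simp at this

lemma ne1 (j : ℕ) (hj : 0 < j) : (1 - RatFunc.X ^ j : RatFunc ℚ) ≠ 0 := by
  obtain ⟨i, rfl⟩ : ∃ i, j = i + 1 := ⟨j - 1, by omega⟩
  simpa using one_sub_ne 1 i

lemma ne2 (j : ℕ) (hj : 0 < j) : (1 + RatFunc.X ^ j : RatFunc ℚ) ≠ 0 := by
  obtain ⟨i, rfl⟩ : ∃ i, j = i + 1 := ⟨j - 1, by omega⟩
  simpa using one_sub_ne (-1) i

lemma qP_succ (a b : RatFunc ℚ) (m : ℕ) : qP a b (m + 1) = qP a b m * (1 - a * b ^ m) :=
  prod_range_succ _ _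

lemma qP_all (m : ℕ) : qP RatFunc.X RatFunc.X m = allP RatFunc.X m := by
  unfold qP allP
  exact prod_congr rfl fun i _ => by ring

lemma qP_ne1 (c m : ℕ) (hc : 0 < c) : qP (RatFunc.X ^ c) (RatFunc.X ^ c) m ≠ 0 := by
  unfold qP
  refine prod_ne_zero_iff.mpr fun i _ => ?_
  rw [← pow_succ', ← pow_mul]
  exact ne1 _ (by positivity)

lemma qP_ne2 (m : ℕ) : qP (-RatFunc.X) RatFunc.X m ≠ 0 := by
  unfold qP
  refine prod_ne_zero_iff.mpr fun i _ => ?_
  rw [neg_mul, sub_neg_eq_add, ← pow_succ']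
  exact ne2 _ (by positivity)

lemma qB_eq (j k : ℕ) : qB (j + k) j = gb RatFunc.X j k := by
  have h1 : ∀ m, allP (RatFunc.X : RatFunc ℚ) m ≠ 0 := fun m => by
    rw [← qP_all]
    simpa using qP_ne1 1 m one_pos
  unfold qB
  rw [Nat.add_sub_cancel_left, qP_all, qP_all, qP_all, ← gb_spec, mul_assoc,
    mul_div_cancel_right₀ _ (mul_ne_zero (h1 _) (h1 _))]

lemma R_self (n : ℕ) : R n n = 1 := by
  unfold R
  rw [div_self (qP_ne2 _), div_self (qP_ne2 _),
    div_self (mul_ne_zero (qP_ne1 2 _ (by norm_num)) (qP_ne1 6 _ (by norm_num)))]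
  simp

lemma R_succ (n k : ℕ) : R (n + 1) k = rho RatFunc.X n * R n k := by
  unfold R rho
  have e : 2 * (n + 1) = 2 * n + 1 + 1 := by ring
  rw [e, qP_succ, qP_succ, qP_succ, qP_succ, qP_succ]
  have h1 : (1 - RatFunc.X ^ 2 * (RatFunc.X ^ 2) ^ n : RatFunc ℚ) ≠ 0 := by
    rw [← pow_succ', ← pow_mul]
    exact ne1 _ (by positivity)
  have h2 : (1 - RatFunc.X ^ 6 * (RatFunc.X ^ 6) ^ n : RatFunc ℚ)
      = (1 - RatFunc.X ^ 2 * (RatFunc.X ^ 2) ^ n) *
        (1 + RatFunc.X ^ (2 * n + 2) + RatFunc.X ^ (4 * n + 4)) := by ring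
  have h3 := qP_ne1 2 n (by norm_num)
  have h4 := qP_ne1 6 k (by norm_num)
  have h5 := qP_ne2 k
  have h6 := qP_ne2 (2 * k)
  rw [h2]
  generalize (1 - RatFunc.X ^ 2 * (RatFunc.X ^ 2) ^ n : RatFunc ℚ) = w at h1 ⊢
  field_simp
  ring

lemma F_eq (n : ℕ) : F n = Fs RatFunc.X n := by
  have hq : ∀ m, (1 - RatFunc.X ^ m) / (1 - RatFunc.X)
      = ∑ i ∈ range m, (RatFunc.X : RatFunc ℚ) ^ i := fun m => by
    rw [← mul_neg_geom_sum, mul_div_cancel_left₀]
    simpa using ne1 1 one_pos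
  have hB : ∀ k, qB (4 * k) (2 * k) * qB (2 * k) k ^ 2 = Bs RatFunc.X k := fun k => by
    have e1 : 4 * k = 2 * k + 2 * k := by ring
    have e2 : qB (2 * k) k = qB (k + k) k := by rw [two_mul]
    rw [e1, e2, qB_eq, qB_eq, Bs]
  induction n with
  | zero =>
    have := hB 0
    unfold F
    rw [zero_add, sum_range_one, R_self, hq, mul_assoc _ (qB _ _), hB]
    simp [Fs, Bs, gb]
  | succ n ih =>
    rw [Fs, ← ih]
    unfold F
    rw [sum_range_succ _ (n + 1), R_self, hq, mul_assoc _ (qB _ _), hB, mul_sum, mul_one]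
    congr 1
    exact sum_congr rfl fun k _ => by rw [R_succ]; ring

theorem main (n c : ℕ) (hc : c = 1 ∨ c = 2) :
    ∃ A B : ℤ[X], aeval RatFunc.X A = F n ∧ aeval RatFunc.X B = qB ((c + 1) * n) n ∧ B ∣ A := by
  refine ⟨Fs X n, gb X n (c * n), ?_, ?_, poly_dvd n c hc⟩
  · have := map_Fs X φ n
    rw [φ_X, ← F_eq] at this
    exact this
  · have := map_gb X φ n (c * n)
    rw [φ_X, ← qB_eq] at this
    have e : (c + 1) * n = n + c * n := by ring
    rw [e]
    exact this

end Pool.Agent.P.MP_8a5308_nt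
end
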